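import Mathlib

set_option autoImplicit false
set_option maxHeartbeats 400000

open Finset Filter Topology

namespace H441Z.FL

variable {X : Type*} [PseudoMetricSpace X]

/-- Lipschitz condition with a real constant. -/
def Lip (L : ℝ) (f : X → ℝ) : Prop := ∀ x y, |f x - f y| ≤ L * dist x y

/-- All signed sums of the functionals are bounded on Lipschitz functions. -/
def Wuc (φ : ℕ → (X → ℝ) →ₗ[ℝ] ℝ) (C : ℝ) : Prop :=
  ∀ (s : Finset ℕ) (a : ℕ → ℝ), (∀ k, |a k| ≤ 1) → ∀ (L : ℝ) (f : X → ℝ), 0 ≤ L → Lip L f →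
    |∑ k ∈ s, a k * φ k f| ≤ C * L

/-- Every functional is finitely supported. -/
def FinSupp (φ : ℕ → (X → ℝ) →ₗ[ℝ] ℝ) : Prop :=
  ∀ k, ∃ (S : Finset X) (B : ℝ), 0 ≤ B ∧ ∀ (f : X → ℝ) (r : ℝ), (∀ x ∈ S, |f x| ≤ r) → |φ k f| ≤ B * r

theorem Lip.mono {L L' : ℝ} {f : X → ℝ} (h : Lip L f) (hL : L ≤ L') : Lip L' f :=
  fun x y => (h x y).trans (mul_le_mul_of_nonneg_right hL dist_nonneg)

theorem Lip.add {L L' : ℝ} {f g : X → ℝ} (h : Lip L f) (h' : Lip L' g) :
    Lip (L + L') (fun x => f x + g x) := by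
  intro x y
  have h1 := h x y
  have h2 := h' x y
  have : f x + g x - (f y + g y) = (f x - f y) + (g x - g y) := by ring
  rw [this]
  have := abs_add_le (f x - f y) (g x - g y)
  linarith

theorem Lip.sub {L L' : ℝ} {f g : X → ℝ} (h : Lip L f) (h' : Lip L' g) :
    Lip (L + L') (fun x => f x - g x) := by
  intro x y
  have h1 := h x y
  have h2 := h' x y
  have : f x - g x - (f y - g y) = (f x - f y) - (g x - g y) := by ring
  rw [this]
  have := abs_sub (f x - f y) (g x - g y)
  linarith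

theorem Lip.cmul {L : ℝ} {f : X → ℝ} (h : Lip L f) (c : ℝ) :
    Lip (|c| * L) (fun x => c * f x) := by
  intro x y
  have h1 := h x y
  have : c * f x - c * f y = c * (f x - f y) := by ring
  rw [this, abs_mul, mul_assoc]
  exact mul_le_mul_of_nonneg_left h1 (abs_nonneg c)

theorem Lip.mul {L L' A A' : ℝ} {f g : X → ℝ} (h : Lip L f) (h' : Lip L' g)
    (hA : ∀ x, |f x| ≤ A) (hA' : ∀ x, |g x| ≤ A') :
    Lip (A * L' + L * A') (fun x => f x * g x) := by
  intro x y
  have h1 := h x y
  have h2 := h' x y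
  have e : f x * g x - f y * g y = f x * (g x - g y) + (f x - f y) * g y := by ring
  have h3 : |f x * (g x - g y)| ≤ A * (L' * dist x y) := by
    rw [abs_mul]
    exact mul_le_mul (hA x) h2 (abs_nonneg _) ((abs_nonneg _).trans (hA x))
  have h4 : |(f x - f y) * g y| ≤ (L * dist x y) * A' := by
    rw [abs_mul]
    exact mul_le_mul h1 (hA' y) (abs_nonneg _) ((abs_nonneg _).trans h1)
  show |f x * g x - f y * g y| ≤ _
  rw [e]
  have := abs_add_le (f x * (g x - g y)) ((f x - f y) * g y)
  nlinarith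

theorem Lip.const (c : ℝ) : Lip 0 (fun _ : X => c) := by
  intro x y; simp

theorem Lip.sum {ι : Type*} (s : Finset ι) {L : ℝ} {f : ι → X → ℝ} (h : ∀ i ∈ s, Lip L (f i)) :
    Lip (s.card * L) (fun x => ∑ i ∈ s, f i x) := by
  intro x y
  show |∑ i ∈ s, f i x - ∑ i ∈ s, f i y| ≤ _
  rw [← Finset.sum_sub_distrib]
  refine (Finset.abs_sum_le_sum_abs _ _).trans ?_
  refine (Finset.sum_le_card_nsmul s _ (L * dist x y) (fun i hi => h i hi x y)).trans ?_
  rw [nsmul_eq_mul, mul_assoc]

theorem Lip.max' {L : ℝ} {f g : X → ℝ} (h : Lip L f) (h' : Lip L g) :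
    Lip L (fun x => max (f x) (g x)) := fun x y =>
  (abs_max_sub_max_le_max _ _ _ _).trans (max_le (h x y) (h' x y))

theorem Lip.min' {L : ℝ} {f g : X → ℝ} (h : Lip L f) (h' : Lip L g) :
    Lip L (fun x => min (f x) (g x)) := fun x y =>
  (abs_min_sub_min_le_max _ _ _ _).trans (max_le (h x y) (h' x y))

theorem Lip.neg {L : ℝ} {f : X → ℝ} (h : Lip L f) : Lip L (fun x => - f x) := by
  intro x y
  have : -f x - -f y = -(f x - f y) := by ring
  show |-f x - -f y| ≤ _
  rw [this, abs_neg]; exact h x y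

theorem Lip.continuous {L : ℝ} {f : X → ℝ} (h : Lip L f) : Continuous f := by
  have : LipschitzWith (Real.toNNReal L) f := by
    apply LipschitzWith.of_dist_le_mul
    intro x y
    rw [Real.dist_eq]
    refine (h x y).trans (mul_le_mul_of_nonneg_right (Real.le_coe_toNNReal L) dist_nonneg)
  exact this.continuous

theorem greedy {φ : ℕ → (X → ℝ) →ₗ[ℝ] ℝ} {C : ℝ} (H : Wuc φ C)
    (Inv : ℕ → (X → ℝ) → Prop) (L η : ℝ) (hL0 : 0 ≤ L) (hη : 0 < η) (h0 : Inv 0 0)
    (hL : ∀ m F, Inv m F → Lip L F)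
    (step : ∀ m F n, Inv m F → ∃ n', n ≤ n' ∧ ∃ a : ℕ → ℝ, (∀ k, |a k| ≤ 1) ∧ ∃ h : X → ℝ,
      η ≤ ∑ k ∈ Ico n n', a k * φ k h ∧ Inv (m + 1) (F + h) ∧ Inv (m + 1) (F - h)) : False := by
  have key : ∀ m : ℕ, ∃ (n : ℕ) (a : ℕ → ℝ) (F : X → ℝ), (∀ k, |a k| ≤ 1) ∧ Inv m F ∧
      m * η ≤ ∑ k ∈ range n, a k * φ k F := by
    intro m
    induction m with
    | zero => exact ⟨0, fun _ => 0, 0, by simp, h0, by simp⟩
    | succ m ih =>
      obtain ⟨n, a, F, ha, hI, hs⟩ := ih
      obtain ⟨n', hn, b, hb, h, hh, hp, hm⟩ := step m F n hI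
      have split : ∀ (ε : ℝ) (G : X → ℝ), ∑ k ∈ range n', (if k < n then a k else ε * b k) * φ k G
          = ∑ k ∈ range n, a k * φ k G + ε * ∑ k ∈ Ico n n', b k * φ k G := by
        intro ε G
        rw [← Finset.sum_range_add_sum_Ico _ hn, Finset.mul_sum]
        congr 1
        · refine Finset.sum_congr rfl fun k hk => ?_
          rw [if_pos (Finset.mem_range.1 hk)]
        · refine Finset.sum_congr rfl fun k hk => ?_
          rw [if_neg (not_lt.2 (Finset.mem_Ico.1 hk).1)]; ring
      have hab : ∀ ε : ℝ, |ε| = 1 → ∀ k, |(if k < n then a k else ε * b k)| ≤ 1 := by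
        intro ε hε k
        split_ifs
        · exact ha k
        · rw [abs_mul, hε, one_mul]; exact hb k
      rcases le_total 0 (∑ k ∈ range n, a k * φ k h + ∑ k ∈ Ico n n', b k * φ k F) with hc | hc
      · refine ⟨n', fun k => if k < n then a k else 1 * b k, F + h, hab 1 (by simp), hp, ?_⟩
        rw [split]
        simp only [map_add, mul_add, Finset.sum_add_distrib]
        push_cast
        linarith
      · refine ⟨n', fun k => if k < n then a k else (-1) * b k, F - h, hab (-1) (by simp), hm, ?_⟩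
        rw [split]
        simp only [map_sub, mul_sub, Finset.sum_sub_distrib]
        push_cast
        linarith
  obtain ⟨m, hm⟩ := exists_nat_gt (C * L / η)
  obtain ⟨n, a, F, ha, hI, hs⟩ := key m
  have h1 := H (range n) a ha L F hL0 (hL m F hI)
  have h2 := le_abs_self (∑ k ∈ range n, a k * φ k F)
  rw [div_lt_iff₀ hη] at hm
  linarith

theorem glue {φ : ℕ → (X → ℝ) →ₗ[ℝ] ℝ} {C : ℝ} (H : Wuc φ C)
    (P : Set X → Prop) (P0 : P ∅) (Pu : ∀ U V, P U → P V → P (U ∪ V)) (L η : ℝ) (hL0 : 0 ≤ L)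
    (hη : 0 < η)
    (step : ∀ U n, P U → ∃ k, n ≤ k ∧ ∃ (b : X → ℝ) (V : Set X), Lip L b ∧ η ≤ φ k b ∧
      (∀ x ∈ U, b x = 0) ∧ P V ∧ ∀ x, x ∉ V → b x = 0) : False := by
  refine greedy H (fun _ F => ∃ U, P U ∧ Lip (2 * L) F ∧ (∀ x, x ∉ U → F x = 0) ∧
    ∀ x y, y ∉ U → |F x| ≤ L * dist x y) (2 * L) η (by linarith) hη ?_ ?_ ?_
  · refine ⟨∅, P0, ?_, by simp, ?_⟩
    · intro x y; simp; positivity
    · intro x y _; simp; positivity
  · rintro m F ⟨U, -, h, -⟩; exact h
  · rintro m F n ⟨U, hU, hF, hz, hZ⟩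
    obtain ⟨k, hk, b, V, hb, hφ, hbU, hV, hbV⟩ := step U n hU
    have main : ∀ b : X → ℝ, Lip L b → (∀ x ∈ U, b x = 0) → (∀ x, x ∉ V → b x = 0) →
        ∃ U, P U ∧ Lip (2 * L) (F + b) ∧ (∀ x, x ∉ U → (F + b) x = 0) ∧
          ∀ x y, y ∉ U → |(F + b) x| ≤ L * dist x y := by
      intro b hb hbU hbV
      have aux : ∀ x y, x ∈ U → y ∉ U → |(F + b) x - (F + b) y| ≤ 2 * L * dist x y := by
        intro x y hx hy
        have h1 := hZ x y hy
        have h2 := hb x y
        simp only [Pi.add_apply, hbU x hx, hz y hy] at *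
        have := abs_add_le (F x) (0 - b y)
        have e : F x + 0 - (0 + b y) = F x + (0 - b y) := by ring
        rw [e]; linarith
      refine ⟨U ∪ V, Pu U V hU hV, ?_, ?_, ?_⟩
      · intro x y
        by_cases hx : x ∈ U <;> by_cases hy : y ∈ U
        · simpa [hbU x hx, hbU y hy] using hF x y
        · exact aux x y hx hy
        · rw [abs_sub_comm, dist_comm]; exact aux y x hy hx
        · have := hb x y
          have h3 : 0 ≤ L * dist x y := by positivity
          simp only [Pi.add_apply, hz x hx, hz y hy, zero_add]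
          linarith
      · intro x hx
        simp only [Set.mem_union, not_or] at hx
        simp [hz x hx.1, hbV x hx.2]
      · intro x y hy
        simp only [Set.mem_union, not_or] at hy
        by_cases hx : x ∈ U
        · simpa [hbU x hx] using hZ x y hy.1
        · simpa [hz x hx, hbV y hy.2] using hb x y
    refine ⟨k + 1, by omega, fun j => if j = k then 1 else 0, ?_, b, ?_, main b hb hbU hbV, ?_⟩
    · intro j; by_cases hj : j = k <;> simp [hj]
    · rw [Finset.sum_eq_single k]
      · simpa using hφ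
      · intro j _ hj; simp [hj]
      · intro h; exact absurd (Finset.mem_Ico.2 ⟨hk, by omega⟩) h
    · have := main (fun x => - b x) hb.neg (fun x hx => by simp [hbU x hx])
        (fun x hx => by simp [hbV x hx])
      have e : F - b = F + fun x => - b x := by ext x; simp [sub_eq_add_neg]
      rw [e]; exact this

/-- truncation at height `m` -/
def clamp (m t : ℝ) : ℝ := max (-m) (min m t)

theorem clamp_eq {m t : ℝ} (h : |t| ≤ m) : clamp m t = t := by
  rw [abs_le] at h
  unfold clamp
  rw [min_eq_right h.2, max_eq_right h.1]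

theorem clamp_zero (t : ℝ) : clamp 0 t = 0 := by
  unfold clamp
  simp

theorem abs_clamp_le {m : ℝ} (hm : 0 ≤ m) (t : ℝ) : |clamp m t| ≤ m := by
  unfold clamp
  rw [abs_le]
  exact ⟨le_max_left _ _, max_le (by linarith) (min_le_left _ _)⟩

theorem Lip.clamp {L : ℝ} {m f : X → ℝ} (hm : Lip L m) (h : Lip L f) :
    Lip L (fun x => clamp (m x) (f x)) := hm.neg.max' (hm.min' h)

omit [PseudoMetricSpace X] in
theorem FinSupp.congr {φ : ℕ → (X → ℝ) →ₗ[ℝ] ℝ} (h : FinSupp φ) (k : ℕ) :
    ∃ S : Finset X, ∀ f g : X → ℝ, (∀ x ∈ S, f x = g x) → φ k f = φ k g := by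
  obtain ⟨S, B, -, hS⟩ := h k
  refine ⟨S, fun f g hfg => ?_⟩
  have := hS (f - g) 0 (fun x hx => by simp [hfg x hx])
  rw [map_sub, mul_zero, abs_nonpos_iff, sub_eq_zero] at this
  exact this

theorem Wuc.finite {φ : ℕ → (X → ℝ) →ₗ[ℝ] ℝ} {C : ℝ} (H : Wuc φ C) {f : X → ℝ} (hf : Lip 1 f)
    {ε : ℝ} (hε : 0 < ε) : {k | ε ≤ |φ k f|}.Finite := by
  by_contra hinf
  obtain ⟨m, hm⟩ := exists_nat_gt (C / ε)
  obtain ⟨s, hs, hc⟩ := Set.Infinite.exists_subset_card_eq hinf m
  have h1 := H s (fun k => if 0 ≤ φ k f then 1 else -1) (fun k => by split_ifs <;> simp) 1 f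
    zero_le_one hf
  have h2 : ∑ k ∈ s, (if 0 ≤ φ k f then (1:ℝ) else -1) * φ k f = ∑ k ∈ s, |φ k f| := by
    refine Finset.sum_congr rfl fun k _ => ?_
    split_ifs with h
    · rw [abs_of_nonneg h, one_mul]
    · rw [abs_of_neg (not_le.1 h)]; ring
  have h3 : s.card • ε ≤ ∑ k ∈ s, |φ k f| :=
    Finset.card_nsmul_le_sum s _ ε (fun k hk => hs hk)
  rw [h2] at h1
  have h4 := le_abs_self (∑ k ∈ s, |φ k f|)
  rw [hc, nsmul_eq_mul] at h3
  rw [div_lt_iff₀ hε] at hm
  linarith

theorem small {φ : ℕ → (X → ℝ) →ₗ[ℝ] ℝ} {C c : ℝ} (H : Wuc φ C) (hfin : FinSupp φ) (x0 : X)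
    (hc : 0 < c) (H2 : ∀ k, ∃ f : X → ℝ, Lip 1 f ∧ f x0 = 0 ∧ c ≤ φ k f) (r : ℝ) (hr : 0 < r)
    (n : ℕ) : ∃ k, n ≤ k ∧ ∃ f : X → ℝ, Lip 1 f ∧ (∀ x, |f x| ≤ r) ∧ c / 8 ≤ φ k f := by
  classical
  by_contra hcon
  push Not at hcon
  choose f hf1 hf0 hfc using H2
  let U : Ultrafilter ℕ := hyperfilter ℕ
  have hU : (U : Filter ℕ) ≤ cofinite := hyperfilter_le_cofinite
  have hlim : ∀ x, ∃ a : ℝ, Tendsto (fun k => f k x) U (𝓝 a) := by
    intro x
    have hle : (U.map (fun k => f k x) : Filter ℝ) ≤ 𝓟 (Set.Icc (-dist x x0) (dist x x0)) := by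
      rw [le_principal_iff]
      refine Filter.mem_map.2 (Filter.univ_mem' fun k => ?_)
      have := hf1 k x x0
      rw [hf0 k, sub_zero, one_mul, abs_le] at this
      exact this
    obtain ⟨a, -, ha⟩ := isCompact_Icc.ultrafilter_le_nhds (U.map (fun k => f k x)) hle
    exact ⟨a, ha⟩
  choose F hF using hlim
  have hF1 : Lip 1 F := by
    intro x y
    exact le_of_tendsto ((hF x).sub (hF y)).abs (Eventually.of_forall fun k => hf1 k x y)
  have hF0 : F x0 = 0 := by
    have h1 : Tendsto (fun k => f k x0) U (𝓝 0) := by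
      simp only [hf0]; exact tendsto_const_nhds
    exact tendsto_nhds_unique (hF x0) h1
  let g : ℕ → X → ℝ := fun k x => (1 / 2) * (f k x - F x)
  have hg1 : ∀ k, Lip 1 (g k) := by
    intro k
    have := ((hf1 k).sub hF1).cmul (1 / 2)
    refine this.mono (by norm_num)
  have hg0 : ∀ k, g k x0 = 0 := fun k => by simp [g, hf0, hF0]
  have hgt : ∀ x, Tendsto (fun k => |g k x|) U (𝓝 0) := by
    intro x
    have := (((hF x).sub_const (F x)).const_mul (1 / 2 : ℝ)).abs
    rw [sub_self, mul_zero, abs_zero] at this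
    exact this
  have hge : ∀ n : ℕ, ∀ᶠ k in (U : Filter ℕ), n ≤ k := by
    intro n
    apply hU
    rw [Nat.cofinite_eq_atTop]
    exact eventually_ge_atTop n
  have hbig : ∀ᶠ k in (U : Filter ℕ), c / 4 ≤ φ k (g k) - φ k (fun x => clamp r (g k x)) := by
    have h1 : ∀ᶠ k in (U : Filter ℕ), ¬ (c / 4 ≤ |φ k F|) :=
      hU (H.finite hF1 (by linarith : 0 < c / 4)).compl_mem_cofinite
    filter_upwards [h1, hge n] with k hk hn
    have h2 := hcon k hn (fun x => clamp r (g k x))
      (Lip.clamp ((Lip.const r).mono zero_le_one) (hg1 k)) (fun x => abs_clamp_le hr.le _)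
    have e : g k = (1 / 2 : ℝ) • (f k - F) := by ext x; simp [g]
    have h3 : φ k (g k) = (1 / 2) * (φ k (f k) - φ k F) := by
      rw [e, map_smul, map_sub, smul_eq_mul]
    have h4 := hfc k
    have h5 := le_abs_self (φ k F)
    push Not at hk
    linarith
  have hcl : ∀ (R : ℝ) k, Lip 1 (fun x => clamp R (g k x)) := fun R k =>
    Lip.clamp ((Lip.const R).mono zero_le_one) (hg1 k)
  by_cases hcase : ∃ R, r ≤ R ∧ ∀ᶠ k in (U : Filter ℕ),
      c / 8 ≤ φ k (fun x => clamp R (g k x)) - φ k (fun x => clamp r (g k x))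
  · obtain ⟨R, hR, hev⟩ := hcase
    have hq : 1 ≤ R / r := by rw [le_div_iff₀ hr]; linarith
    refine glue H (fun V => ∃ S : Finset X, ∀ x ∈ V, ∃ s ∈ S, dist x s < r / 2)
      ⟨∅, by simp⟩ ?_ (4 * (R / r)) (c / 8) (by linarith) (by linarith) ?_
    · rintro V W ⟨S, hS⟩ ⟨T, hT⟩
      refine ⟨S ∪ T, ?_⟩
      rintro x (hx | hx)
      · obtain ⟨s, h1, h2⟩ := hS x hx; exact ⟨s, by simp [h1], h2⟩
      · obtain ⟨s, h1, h2⟩ := hT x hx; exact ⟨s, by simp [h1], h2⟩
    · rintro V n' ⟨S, hS⟩
      have h1 : ∀ᶠ k in (U : Filter ℕ), ∀ s ∈ S, |g k s| < r / 2 := by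
        rw [Filter.eventually_all_finset]
        intro s _
        exact (hgt s).eventually (gt_mem_nhds (by linarith))
      obtain ⟨k, hk1, hk2, hk3⟩ := (h1.and (hev.and (hge n'))).exists
      obtain ⟨T, hT⟩ := hfin.congr k
      let T' : Finset X := insert x0 T
      have hne : (T' : Set X).Nonempty := ⟨x0, by simp [T']⟩
      let b : X → ℝ := fun x => clamp R (g k x) - clamp r (g k x)
      let m : X → ℝ := fun x => (4 * (R / r)) * max 0 (r / 2 - Metric.infDist x T')
      have hb : Lip (4 * (R / r)) b := ((hcl R k).sub (hcl r k)).mono (by linarith)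
      have hm : Lip (4 * (R / r)) m := by
        have h2 : Lip 1 (fun x => Metric.infDist x (T' : Set X)) := by
          intro x y
          have := (Metric.lipschitz_infDist_pt (T' : Set X)).dist_le_mul x y
          simpa [Real.dist_eq] using this
        have h3 := (((Lip.const (0:ℝ)).mono zero_le_one).max'
          (((Lip.const (r / 2)).sub h2).mono (by norm_num : (0:ℝ) + 1 ≤ 1))).cmul (4 * (R / r))
        rw [abs_of_nonneg (by linarith), mul_one] at h3
        exact h3
      refine ⟨k, hk3, fun x => clamp (m x) (b x), {x | ∃ s ∈ T', dist x s < r / 2}, hm.clamp hb,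
        ?_, ?_, ⟨T', fun x hx => hx⟩, ?_⟩
      · rw [hT (fun x => clamp (m x) (b x)) b]
        · have e : b = (fun x => clamp R (g k x)) - (fun x => clamp r (g k x)) := rfl
          rw [e, map_sub]; exact hk2
        · intro x hx
          apply clamp_eq
          have h2 : Metric.infDist x (T' : Set X) = 0 :=
            Metric.infDist_zero_of_mem (by simp [T', hx])
          have h3 : m x = 2 * R := by
            simp only [m, h2, sub_zero]
            rw [max_eq_right (by linarith)]
            field_simp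
            ring
          have h4 := abs_clamp_le (hr.le.trans hR) (g k x)
          have h5 := abs_clamp_le hr.le (g k x)
          have h6 := abs_sub (clamp R (g k x)) (clamp r (g k x))
          rw [h3]
          simp only [b]
          linarith
      · intro x hx
        obtain ⟨s, hs, hd⟩ := hS x hx
        have h2 := hk1 s hs
        have h3 := hg1 k x s
        have h4 : |g k x| ≤ r := by
          have := abs_add_le (g k x - g k s) (g k s)
          rw [sub_add_cancel] at this
          linarith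
        have h5 : b x = 0 := by
          simp only [b]
          rw [clamp_eq h4, clamp_eq (h4.trans hR), sub_self]
        show clamp (m x) (b x) = 0
        rw [h5]
        apply clamp_eq
        simp only [abs_zero, m]
        positivity
      · intro x hx
        have h2 : ¬ Metric.infDist x (T' : Set X) < r / 2 := by
          rw [Metric.infDist_lt_iff hne]
          exact hx
        have h3 : m x = 0 := by
          simp only [m]
          rw [max_eq_left (by linarith [not_lt.1 h2]), mul_zero]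
        show clamp (m x) (b x) = 0
        rw [h3, clamp_zero]
  · push Not at hcase
    refine glue H (fun V => ∃ ρ : ℝ, ∀ x ∈ V, dist x x0 < ρ) ⟨0, by simp⟩ ?_ 2 (c / 8)
      (by norm_num) (by linarith) ?_
    · rintro V W ⟨ρ, hρ⟩ ⟨σ, hσ⟩
      refine ⟨max ρ σ, ?_⟩
      rintro x (hx | hx)
      · exact lt_max_of_lt_left (hρ x hx)
      · exact lt_max_of_lt_right (hσ x hx)
    · rintro V n' ⟨ρ, hρ⟩
      have h1 := hcase (max r ρ) (le_max_left _ _)
      obtain ⟨k, hk1, hk2, hk3⟩ := (Filter.Eventually.and h1 (hbig.and (hge n'))).exists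
      obtain ⟨T, hT⟩ := hfin.congr k
      let b : X → ℝ := fun x => g k x - clamp (max r ρ) (g k x)
      let σ : ℝ := ∑ s ∈ T, (|b s| + dist s x0)
      let m : X → ℝ := fun x => max 0 (σ - dist x x0)
      have hb : Lip 2 b := ((hg1 k).sub (hcl _ k)).mono (by norm_num)
      have hm : Lip 2 m := by
        have h2 : Lip 1 (fun x => dist x x0) := by
          intro x y
          simpa using abs_dist_sub_le x y x0
        exact ((Lip.const (0:ℝ)).mono zero_le_two).max'
          (((Lip.const σ).sub h2).mono (by norm_num))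
      refine ⟨k, hk3, fun x => clamp (m x) (b x), {x | dist x x0 < σ}, hm.clamp hb,
        ?_, ?_, ⟨σ, fun x hx => hx⟩, ?_⟩
      · rw [hT (fun x => clamp (m x) (b x)) b]
        · have e : b = g k - (fun x => clamp (max r ρ) (g k x)) := rfl
          rw [e, map_sub]; linarith
        · intro x hx
          apply clamp_eq
          have h2 : |b x| + dist x x0 ≤ σ :=
            Finset.single_le_sum (f := fun s => |b s| + dist s x0) (fun s _ => by positivity) hx
          exact le_max_of_le_right (by linarith)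
      · intro x hx
        have h2 := hρ x hx
        have h3 := hg1 k x x0
        rw [hg0, sub_zero, one_mul] at h3
        have h5 : b x = 0 := by
          simp only [b]
          rw [clamp_eq (le_max_of_le_right (by linarith)), sub_self]
        show clamp (m x) (b x) = 0
        rw [h5]
        apply clamp_eq
        simp [m]
      · intro x hx
        have h3 : m x = 0 := max_eq_left (by
          have : ¬ dist x x0 < σ := hx
          linarith [not_lt.1 this])
        show clamp (m x) (b x) = 0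
        rw [h3, clamp_zero]

end H441Z.FL
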