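import Pool.Agent.H441Z.FL.Smooth

set_option autoImplicit false
set_option maxHeartbeats 400000

open Finset Filter Topology

namespace H441Z.FL

variable {E : Type*} [NormedAddCommGroup E] [NormedSpace ℝ E]

/-- State of the random sign construction after `i` steps. -/
def St (φ : ℕ → (E → ℝ) →ₗ[ℝ] ℝ) (e : ℕ → E) (N n : ℕ) (c δ γ θ : ℝ) (i : ℕ) : Prop :=
  ∃ (Ω : Type) (_ : Fintype Ω) (_ : Nonempty Ω) (n' : ℕ) (a : Ω → ℕ → ℝ) (h : Ω → E → ℝ)
    (S : Ω → ℕ → E → ℝ) (K : ℝ), n ≤ n' ∧ 0 ≤ K ∧ (∀ w k, |a w k| ≤ 1) ∧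
    (∀ w, Lip (i * γ * (1 + θ)) (h w)) ∧ (∀ w, ∀ j < N, Lip K (S w j)) ∧
    (∀ w, ∀ j < N, ∀ x, |S w j x| ≤ δ + γ) ∧
    (∀ w, ∀ j < N, ∀ x (t : ℝ),
      |h w (x + t • e j) - h w x - t * S w j x| ≤ i * γ * θ * |t| + K * t ^ 2) ∧
    (∀ x, ∑ w, ∑ j ∈ range N, S w j x ^ 2 ≤ Fintype.card Ω * (i * N * γ ^ 2)) ∧
    Fintype.card Ω * (i * γ * (c / 4)) ≤ ∑ w, ∑ k ∈ Ico n n', a w k * φ k (h w)

theorem st_zero (φ : ℕ → (E → ℝ) →ₗ[ℝ] ℝ) (e : ℕ → E) (N n : ℕ) (c δ γ θ : ℝ) (hδ : 0 < δ)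
    (hγ : 0 < γ) : St φ e N n c δ γ θ 0 := by
  refine ⟨Unit, inferInstance, inferInstance, n, fun _ _ => 0, fun _ _ => 0, fun _ _ _ => 0, 0,
    le_rfl, le_rfl, by simp, ?_, ?_, ?_, ?_, ?_, ?_⟩
  · intro w x y; simp
  · intro w j _ x y; simp
  · intro w j _ x; simp; positivity
  · intro w j _ x t; simp
  · intro x; simp
  · simp

theorem st_succ {φ : ℕ → (E → ℝ) →ₗ[ℝ] ℝ} {C : ℝ} (H : Wuc φ C) (hC : 0 ≤ C) {e : ℕ → E}
    (he : ∀ j, ‖e j‖ ≤ 1) {N n : ℕ} {c δ γ θ : ℝ} (hδ : 0 < δ) (hγ : 0 < γ) (hθ : 0 < θ)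
    (hpar : C * (N * γ / δ ^ 2 + θ) ≤ c / 4)
    (hs : ∀ r : ℝ, 0 < r → ∀ n : ℕ, ∃ k, n ≤ k ∧ ∃ (f : E → ℝ) (g : ℕ → E → ℝ) (K : ℝ), 0 ≤ K ∧
      Lip 1 f ∧ (∀ x, |f x| ≤ r) ∧ c / 2 ≤ φ k f ∧ ∀ j < N, Der (e j) f (g j) K)
    {i : ℕ} (hi : i * γ ≤ 1) (hst : St φ e N n c δ γ θ i) : St φ e N n c δ γ θ (i + 1) := by
  obtain ⟨Ω, _, _, n', a, h, S, K, hn, hK, ha, hh, hSL, hSb, hD, hM, hP⟩ := hst
  -- the cut-off functions
  let q : Ω → E → ℝ := fun w x => ∑ j ∈ range N, S w j x * S w j x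
  let K' : ℝ := (δ ^ 2)⁻¹ * (N * (2 * (δ + γ) * K))
  have hK' : 0 ≤ K' := by positivity
  let ψ : Ω → E → ℝ := fun w x => max 0 (1 - (δ ^ 2)⁻¹ * q w x)
  have hq0 : ∀ w x, 0 ≤ q w x := fun w x => Finset.sum_nonneg fun j _ => mul_self_nonneg _
  have hψ0 : ∀ w x, 0 ≤ ψ w x := fun w x => le_max_left _ _
  have hψ1 : ∀ w x, ψ w x ≤ 1 := fun w x => max_le zero_le_one (by
    have : 0 ≤ (δ ^ 2)⁻¹ * q w x := mul_nonneg (by positivity) (hq0 w x)
    linarith)
  have hψa : ∀ w x, |ψ w x| ≤ 1 := fun w x => by rw [abs_of_nonneg (hψ0 w x)]; exact hψ1 w x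
  have hψL : ∀ w, Lip K' (ψ w) := by
    intro w
    have h1 : Lip ((range N).card * (2 * (δ + γ) * K)) (q w) := by
      refine Lip.sum (range N) (f := fun j x => S w j x * S w j x) fun j hj => ?_
      have hj' := Finset.mem_range.1 hj
      exact ((hSL w j hj').mul (hSL w j hj') (hSb w j hj') (hSb w j hj')).mono (le_of_eq (by ring))
    rw [Finset.card_range] at h1
    have h2 := h1.cmul (δ ^ 2)⁻¹
    rw [abs_of_nonneg (by positivity)] at h2
    exact ((Lip.const (0:ℝ)).mono hK').max' (((Lip.const (1:ℝ)).sub h2).mono (by simp [K']))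
  have hψz : ∀ w, ∀ j < N, ∀ x, δ ≤ |S w j x| → ψ w x = 0 := by
    intro w j hj x hx
    have h1 : S w j x * S w j x ≤ q w x :=
      Finset.single_le_sum (f := fun j => S w j x * S w j x) (fun j _ => mul_self_nonneg _)
        (Finset.mem_range.2 hj)
    have h2 : δ ^ 2 ≤ S w j x * S w j x := by
      rw [← abs_mul_abs_self]; nlinarith
    apply max_eq_left
    have h3 : 1 ≤ (δ ^ 2)⁻¹ * q w x := by
      rw [le_inv_mul_iff₀ (by positivity)]; linarith
    linarith
  obtain ⟨k, hk, f, g, Kf, hKf, hf1, hfr, hfc, hder⟩ := hs (θ / (K' + 1)) (by positivity) n'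
  have hKr : K' * (θ / (K' + 1)) ≤ θ := by
    rw [mul_div_assoc', div_le_iff₀ (by positivity)]; nlinarith
  set r := θ / (K' + 1) with hr
  have hr0 : 0 ≤ r := by positivity
  let sg : Bool → ℝ := fun b => if b then 1 else -1
  have hsg : ∀ b, |sg b| = 1 := fun b => by cases b <;> simp [sg]
  have hψf : ∀ w, Lip (1 + θ) (fun x => ψ w x * f x) := fun w =>
    ((hψL w).mul hf1 (hψa w) hfr).mono (by linarith)
  refine ⟨Ω × Bool, inferInstance, inferInstance, k + 1,
    fun w j => if j < n' then a w.1 j else if j = k then sg w.2 else 0,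
    fun w x => h w.1 x + (sg w.2 * γ) * (ψ w.1 x * f x),
    fun w j x => S w.1 j x + (sg w.2 * γ) * (ψ w.1 x * g j x),
    K + γ * (Kf + K'), by omega, by positivity, ?_, ?_, ?_, ?_, ?_, ?_, ?_⟩
  · intro w j
    beta_reduce
    split_ifs
    · exact ha _ _
    · exact (hsg _).le
    · simp
  · intro w
    have h1 := (hh w.1).add ((hψf w.1).cmul (sg w.2 * γ))
    rw [abs_mul, hsg, abs_of_pos hγ] at h1
    exact h1.mono (le_of_eq (by push_cast; ring))
  · intro w j hj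
    have h1 := (hSL w.1 j hj).add
      (((hψL w.1).mul (hder j hj).1 (hψa w.1) (hder j hj).2.1).cmul (sg w.2 * γ))
    rw [abs_mul, hsg, abs_of_pos hγ] at h1
    exact h1.mono (le_of_eq (by ring))
  · intro w j hj x
    rcases le_total δ |S w.1 j x| with hx | hx
    · simp only [hψz w.1 j hj x hx, zero_mul, mul_zero, add_zero]
      exact hSb _ j hj x
    · refine (abs_add_le _ _).trans (add_le_add hx ?_)
      rw [abs_mul, abs_mul, abs_mul, hsg, abs_of_pos hγ, one_mul]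
      have h1 : |ψ w.1 x| * |g j x| ≤ 1 :=
        mul_le_one₀ (hψa _ _) (abs_nonneg _) ((hder j hj).2.1 x)
      nlinarith
  · intro w j hj x t
    have h1 := hD w.1 j hj x t
    have h2 := (hder j hj).2.2 x t
    have h3 := hψL w.1 (x + t • e j) x
    rw [dist_eq_norm, add_sub_cancel_left, norm_smul, Real.norm_eq_abs] at h3
    have h4 : |ψ w.1 (x + t • e j) - ψ w.1 x| ≤ K' * |t| := by
      refine h3.trans (mul_le_mul_of_nonneg_left ?_ hK')
      nlinarith [he j, abs_nonneg t, norm_nonneg (e j)]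
    have h5 : |ψ w.1 x * (f (x + t • e j) - f x - t * g j x)| ≤ Kf * t ^ 2 := by
      rw [abs_mul]
      nlinarith [hψa w.1 x, abs_nonneg (ψ w.1 x), abs_nonneg (f (x + t • e j) - f x - t * g j x)]
    have h6 : |(ψ w.1 (x + t • e j) - ψ w.1 x) * f (x + t • e j)| ≤ θ * |t| := by
      rw [abs_mul]
      refine (mul_le_mul h4 (hfr _) (abs_nonneg _) (by positivity)).trans ?_
      nlinarith [abs_nonneg t]
    have e1 : h w.1 (x + t • e j) + sg w.2 * γ * (ψ w.1 (x + t • e j) * f (x + t • e j))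
        - (h w.1 x + sg w.2 * γ * (ψ w.1 x * f x))
        - t * (S w.1 j x + sg w.2 * γ * (ψ w.1 x * g j x))
        = (h w.1 (x + t • e j) - h w.1 x - t * S w.1 j x)
          + sg w.2 * γ * (ψ w.1 x * (f (x + t • e j) - f x - t * g j x)
            + (ψ w.1 (x + t • e j) - ψ w.1 x) * f (x + t • e j)) := by ring
    rw [e1]
    refine (abs_add_le _ _).trans ?_
    rw [abs_mul (sg w.2 * γ), abs_mul (sg w.2), hsg, abs_of_pos hγ, one_mul]
    have h7 := abs_add_le (ψ w.1 x * (f (x + t • e j) - f x - t * g j x))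
      ((ψ w.1 (x + t • e j) - ψ w.1 x) * f (x + t • e j))
    have h8 : γ * |ψ w.1 x * (f (x + t • e j) - f x - t * g j x)
        + (ψ w.1 (x + t • e j) - ψ w.1 x) * f (x + t • e j)| ≤ γ * (Kf * t ^ 2 + θ * |t|) :=
      mul_le_mul_of_nonneg_left (by linarith) hγ.le
    have h9 : 0 ≤ γ * K' * t ^ 2 := by positivity
    push_cast
    nlinarith
  · intro x
    rw [Fintype.sum_prod_type, Fintype.card_prod, Fintype.card_bool]
    have h1 : ∀ w : Ω, ∑ b : Bool, ∑ j ∈ range N, (S w j x + (sg b * γ) * (ψ w x * g j x)) ^ 2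
        ≤ 2 * ∑ j ∈ range N, S w j x ^ 2 + 2 * (N * γ ^ 2) := by
      intro w
      rw [Fintype.sum_bool, ← Finset.sum_add_distrib, Finset.mul_sum]
      have : (2 : ℝ) * (N * γ ^ 2) = ∑ j ∈ range N, 2 * γ ^ 2 := by
        simp; ring
      rw [this, ← Finset.sum_add_distrib]
      refine Finset.sum_le_sum fun j hj => ?_
      have h2 : |ψ w x * g j x| ≤ 1 := by
        rw [abs_mul]
        exact mul_le_one₀ (hψa _ _) (abs_nonneg _) ((hder j (Finset.mem_range.1 hj)).2.1 x)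
      have h3 : (ψ w x * g j x) ^ 2 ≤ 1 := by
        rw [← sq_abs]; nlinarith [abs_nonneg (ψ w x * g j x)]
      simp only [sg, if_true, Bool.false_eq_true, if_false]
      nlinarith [sq_nonneg γ]
    refine (Finset.sum_le_sum fun w _ => h1 w).trans ?_
    rw [Finset.sum_add_distrib, ← Finset.mul_sum]
    have h2 := hM x
    simp only [Finset.sum_const, Finset.card_univ, nsmul_eq_mul]
    push_cast
    nlinarith
  · rw [Fintype.sum_prod_type, Fintype.card_prod, Fintype.card_bool]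
    have split : ∀ (w : Ω) (b : Bool) (G : E → ℝ),
        ∑ j ∈ Ico n (k + 1), (if j < n' then a w j else if j = k then sg b else 0) * φ j G
        = ∑ j ∈ Ico n n', a w j * φ j G + sg b * φ k G := by
      intro w b G
      rw [← Finset.sum_Ico_consecutive _ hn (by omega : n' ≤ k + 1)]
      congr 1
      · refine Finset.sum_congr rfl fun j hj => ?_
        rw [if_pos (Finset.mem_Ico.1 hj).2]
      · rw [Finset.sum_eq_single k]
        · rw [if_neg (by omega), if_pos rfl]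
        · intro j hj hjk
          rw [if_neg (not_lt.2 (Finset.mem_Ico.1 hj).1), if_neg hjk, zero_mul]
        · intro hk'; exact absurd (Finset.mem_Ico.2 ⟨hk, by omega⟩) hk'
    have lin : ∀ (w : Ω) (s : ℝ) (j : ℕ), φ j (fun x => h w x + s * (ψ w x * f x))
        = φ j (h w) + s * φ j (fun x => ψ w x * f x) := by
      intro w s j
      have : (fun x => h w x + s * (ψ w x * f x)) = h w + s • (fun x => ψ w x * f x) := rfl
      rw [this, map_add, map_smul, smul_eq_mul]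
    have h1 : ∀ w : Ω, ∑ b : Bool, ∑ j ∈ Ico n (k + 1),
        (if j < n' then a w j else if j = k then sg b else 0) *
          φ j (fun x => h w x + (sg b * γ) * (ψ w x * f x))
        = 2 * ∑ j ∈ Ico n n', a w j * φ j (h w) + 2 * γ * φ k (fun x => ψ w x * f x) := by
      intro w
      rw [Fintype.sum_bool, split, split]
      simp only [lin, mul_add, Finset.sum_add_distrib, sg, if_true, Bool.false_eq_true, if_false]
      have e2 : ∀ s : ℝ, ∑ j ∈ Ico n n', a w j * (s * γ * φ j (fun x => ψ w x * f x))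
          = s * (γ * ∑ j ∈ Ico n n', a w j * φ j (fun x => ψ w x * f x)) := by
        intro s
        rw [Finset.mul_sum, Finset.mul_sum]
        exact Finset.sum_congr rfl fun j _ => by ring
      rw [e2, e2]
      ring
    rw [Finset.sum_congr rfl fun w _ => h1 w, Finset.sum_add_distrib, ← Finset.mul_sum,
      ← Finset.mul_sum]
    let W : E → ℝ := fun x => ∑ w : Ω, (1 - ψ w x)
    have hWL : Lip (Fintype.card Ω * K') W := by
      have := Lip.sum (Finset.univ : Finset Ω) (L := K') (f := fun w x => 1 - ψ w x)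
        (fun w _ => ((Lip.const (1:ℝ)).sub (hψL w)).mono (by simp))
      rwa [Finset.card_univ] at this
    have hcard : (0:ℝ) ≤ Fintype.card Ω := by positivity
    have hWb : ∀ x, |W x| ≤ Fintype.card Ω * (N * γ / δ ^ 2) := by
      intro x
      rw [abs_of_nonneg (Finset.sum_nonneg fun w _ => by linarith [hψ1 w x])]
      have h2 : W x ≤ ∑ w : Ω, (δ ^ 2)⁻¹ * ∑ j ∈ range N, S w j x ^ 2 := by
        refine Finset.sum_le_sum fun w _ => ?_
        have h3 : 1 - (δ ^ 2)⁻¹ * q w x ≤ ψ w x := le_max_right _ _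
        have h4 : q w x = ∑ j ∈ range N, S w j x ^ 2 :=
          Finset.sum_congr rfl fun j _ => by ring
        rw [← h4]; linarith
      rw [← Finset.mul_sum] at h2
      refine h2.trans ?_
      rw [inv_mul_le_iff₀ (by positivity)]
      refine (hM x).trans ?_
      have e3 : δ ^ 2 * (Fintype.card Ω * (N * γ / δ ^ 2)) = Fintype.card Ω * (N * γ) := by
        field_simp
      rw [e3]
      refine mul_le_mul_of_nonneg_left ?_ hcard
      have : (0:ℝ) ≤ N * γ := by positivity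
      nlinarith
    have hWf : Lip (Fintype.card Ω * (N * γ / δ ^ 2 + θ)) (fun x => W x * f x) := by
      refine (hWL.mul hf1 hWb hfr).mono ?_
      have := mul_le_mul_of_nonneg_left hKr hcard
      nlinarith
    have h3 := H {k} (fun _ => 1) (by simp) _ _ (by positivity) hWf
    rw [Finset.sum_singleton, one_mul] at h3
    have h4 : ∑ w : Ω, φ k (fun x => ψ w x * f x)
        = Fintype.card Ω * φ k f - φ k (fun x => W x * f x) := by
      have e4 : (fun x => W x * f x)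
          = (Fintype.card Ω : ℝ) • f - ∑ w : Ω, (fun x => ψ w x * f x) := by
        ext x
        simp only [W, Pi.sub_apply, Pi.smul_apply, Finset.sum_apply, smul_eq_mul,
          Finset.sum_sub_distrib, Finset.sum_const, Finset.card_univ, nsmul_eq_mul, mul_one,
          sub_mul, Finset.sum_mul]
      rw [e4, map_sub, map_smul, map_sum, smul_eq_mul]
      ring
    have h5 := le_abs_self (φ k (fun x => W x * f x))
    have h6 : C * (Fintype.card Ω * (N * γ / δ ^ 2 + θ)) ≤ Fintype.card Ω * (c / 4) := by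
      have := mul_le_mul_of_nonneg_left hpar hcard
      nlinarith
    have h7 : Fintype.card Ω * (c / 2) ≤ Fintype.card Ω * φ k f :=
      mul_le_mul_of_nonneg_left hfc hcard
    have h8 : Fintype.card Ω * (c / 4) ≤ ∑ w : Ω, φ k (fun x => ψ w x * f x) := by
      rw [h4]; linarith
    have h9 := mul_le_mul_of_nonneg_left h8 hγ.le
    push_cast
    nlinarith

theorem inner {φ : ℕ → (E → ℝ) →ₗ[ℝ] ℝ} {C c : ℝ} (H : Wuc φ C) (hC : 0 ≤ C) (hfin : FinSupp φ)
    {e : ℕ → E} (he : ∀ j, ‖e j‖ ≤ 1) (hc : 0 < c)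
    (hs : ∀ r : ℝ, 0 < r → ∀ n : ℕ, ∃ k, n ≤ k ∧ ∃ f : E → ℝ, Lip 1 f ∧ (∀ x, |f x| ≤ r) ∧
      c ≤ φ k f) (N : ℕ) {δ : ℝ} (hδ : 0 < δ) (n : ℕ) :
    ∃ n', n ≤ n' ∧ ∃ a : ℕ → ℝ, (∀ k, |a k| ≤ 1) ∧ ∃ h : E → ℝ, Lip 2 h ∧
      (∀ j < N, ∀ x (t : ℝ), |h (x + t • e j) - h x| ≤ 3 * δ * |t|) ∧
      c / 4 ≤ ∑ k ∈ Ico n n', a k * φ k h := by
  have hs' : ∀ r : ℝ, 0 < r → ∀ n : ℕ, ∃ k, n ≤ k ∧ ∃ (f : E → ℝ) (g : ℕ → E → ℝ) (K : ℝ),
      0 ≤ K ∧ Lip 1 f ∧ (∀ x, |f x| ≤ r) ∧ c / 2 ≤ φ k f ∧ ∀ j < N, Der (e j) f (g j) K := by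
    intro r hr n
    obtain ⟨k, hk, f, hf1, hfr, hfc⟩ := hs r hr n
    obtain ⟨T, B, hB, hT⟩ := hfin k
    obtain ⟨f', g, K, hK, h1, h2, h3, h4⟩ := smooth e he N hf1 hfr (c / (2 * (B + 1)))
      (by positivity)
    refine ⟨k, hk, f', g, K, hK, h1, h2, ?_, h4⟩
    have h5 := hT (f' - f) _ (fun x _ => h3 x)
    rw [map_sub, abs_le] at h5
    have h6 : B * (c / (2 * (B + 1))) ≤ c / 2 := by
      rw [mul_div_assoc', div_le_div_iff₀ (by positivity) (by positivity)]
      nlinarith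
    linarith [h5.1]
  let θ : ℝ := min 1 (min δ (c / (8 * (C + 1))))
  have hθ : 0 < θ := by positivity
  have hθ1 : θ ≤ 1 := min_le_left _ _
  have hθ2 : θ ≤ δ := (min_le_right _ _).trans (min_le_left _ _)
  have hθ3 : C * θ ≤ c / 8 := by
    have h1 : θ ≤ c / (8 * (C + 1)) := (min_le_right _ _).trans (min_le_right _ _)
    rw [le_div_iff₀ (by positivity)] at h1
    nlinarith
  obtain ⟨m, hm⟩ := exists_nat_gt (max (1 / δ) (8 * C * N / (c * δ ^ 2)))
  have hm0 : (0:ℝ) < m := lt_of_le_of_lt (le_max_of_le_left (by positivity)) hm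
  have hγ : (0:ℝ) < 1 / m := by positivity
  have hγδ : (1:ℝ) / m ≤ δ := by
    have := (le_max_left _ _).trans_lt hm
    rw [div_lt_iff₀ hδ] at this
    rw [div_le_iff₀ hm0]; linarith
  have hpar : C * (N * (1 / m) / δ ^ 2 + θ) ≤ c / 4 := by
    have h1 := (le_max_right _ _).trans_lt hm
    rw [div_lt_iff₀ (by positivity)] at h1
    have h2 : C * (N * (1 / m) / δ ^ 2) ≤ c / 8 := by
      have : C * (N * (1 / m) / δ ^ 2) = C * N / (m * δ ^ 2) := by field_simp
      rw [this, div_le_div_iff₀ (by positivity) (by positivity)]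
      nlinarith
    linarith
  have key : ∀ i : ℕ, i ≤ m → St φ e N n c δ (1 / m) θ i := by
    intro i
    induction i with
    | zero => exact fun _ => st_zero φ e N n c δ _ θ hδ hγ
    | succ i ih =>
      intro hi
      refine st_succ H hC he hδ hγ hθ hpar hs' ?_ (ih (by omega))
      rw [mul_one_div, div_le_one hm0]
      exact_mod_cast (by omega : i ≤ m)
  obtain ⟨Ω, _, _, n', a, h, S, K, hn, hK, ha, hh, hSL, hSb, hD, hM, hP⟩ := key m le_rfl
  have hm1 : (m:ℝ) * (1 / m) = 1 := by field_simp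
  rw [hm1] at hh hD hP
  obtain ⟨w, -, hw⟩ := Finset.exists_le_of_sum_le (s := (Finset.univ : Finset Ω))
    (f := fun _ => c / 4) (g := fun w => ∑ k ∈ Ico n n', a w k * φ k (h w))
    Finset.univ_nonempty (by simpa using hP)
  refine ⟨n', hn, a w, ha w, h w, (hh w).mono (by linarith), ?_, hw⟩
  intro j hj
  refine line_lip (K := K) fun x t => ?_
  have h1 := hD w j hj x t
  have h2 := hSb w j hj x
  have h3 : |t * S w j x| ≤ |t| * (δ + 1 / m) := by
    rw [abs_mul]; exact mul_le_mul_of_nonneg_left h2 (abs_nonneg t)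
  have h4 := abs_add_le (h w (x + t • e j) - h w x - t * S w j x) (t * S w j x)
  rw [sub_add_cancel] at h4
  nlinarith [abs_nonneg t]

end H441Z.FL
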