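import Pool.Agent.H441Z.FL.Inner

set_option autoImplicit false
set_option maxHeartbeats 400000

open Finset Filter Topology

namespace H441Z.FL

abbrev L1 := lp (fun _ : ℕ => ℝ) 1

noncomputable def ee (j : ℕ) : L1 := lp.single 1 j (1 : ℝ)

theorem norm_ee (j : ℕ) : ‖ee j‖ ≤ 1 := by
  unfold ee
  rw [lp.norm_single (by norm_num)]
  simp

theorem single_eq (j : ℕ) (t : ℝ) : (lp.single 1 j t : L1) = t • ee j := by
  unfold ee
  rw [← lp.single_smul]
  simp

theorem ee_apply (j i : ℕ) : ee j i = if i = j then 1 else 0 := by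
  unfold ee
  rw [lp.single_apply, Pi.single_apply]

noncomputable def proj (N : ℕ) (x : L1) : L1 := ∑ j ∈ range N, x j • ee j

theorem proj_tendsto (x : L1) : Tendsto (fun N => proj N x) atTop (𝓝 x) := by
  have := (lp.hasSum_single (p := 1) (by norm_num) x).tendsto_sum_nat
  simpa only [proj, single_eq] using this

theorem sum_abs_le (N : ℕ) (x : L1) : ∑ j ∈ range N, |x j| ≤ ‖x‖ := by
  have := lp.sum_rpow_le_norm_rpow (p := 1) (by norm_num) x (range N)
  simpa using this

theorem proj_sub (N : ℕ) (x y : L1) : proj N x - proj N y = proj N (x - y) := by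
  unfold proj
  rw [← Finset.sum_sub_distrib]
  refine Finset.sum_congr rfl fun j _ => ?_
  rw [← sub_smul]
  simp

theorem norm_proj_le (N : ℕ) (x : L1) : ‖proj N x‖ ≤ ‖x‖ := by
  refine (norm_sum_le _ _).trans (le_trans (Finset.sum_le_sum fun j _ => ?_) (sum_abs_le N x))
  rw [norm_smul, Real.norm_eq_abs]
  nlinarith [norm_ee j, abs_nonneg (x j), norm_nonneg (ee j)]

theorem proj_add (N j : ℕ) (x : L1) (t : ℝ) :
    proj N (x + t • ee j) = if j < N then proj N x + t • ee j else proj N x := by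
  have h1 : proj N (x + t • ee j) = proj N x + ∑ i ∈ range N, (if i = j then t • ee j else 0) := by
    unfold proj
    rw [← Finset.sum_add_distrib]
    refine Finset.sum_congr rfl fun i _ => ?_
    have : (x + t • ee j) i = x i + t * ee j i := by simp
    rw [this, ee_apply, add_smul]
    split_ifs with h
    · subst h; simp
    · simp
  rw [h1, Finset.sum_ite_eq']
  simp only [Finset.mem_range]
  split_ifs <;> simp

theorem lip_of_dir {F : L1 → ℝ} (hF : Continuous F) {L : ℝ} (hL : 0 ≤ L)
    (H : ∀ j x (t : ℝ), |F (x + t • ee j) - F x| ≤ L * |t|) : Lip L F := by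
  intro x y
  have key : ∀ N, |F (y + proj N (x - y)) - F y| ≤ L * ∑ j ∈ range N, |(x - y) j| := by
    intro N
    induction N with
    | zero => simp [proj]
    | succ N ih =>
      have h1 := H N (y + proj N (x - y)) ((x - y) N)
      have e1 : y + proj (N + 1) (x - y) = y + proj N (x - y) + (x - y) N • ee N := by
        simp only [proj, Finset.sum_range_succ, add_assoc]
      rw [e1, Finset.sum_range_succ]
      have h2 := abs_sub_le (F (y + proj N (x - y) + (x - y) N • ee N)) (F (y + proj N (x - y)))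
        (F y)
      linarith
  have lim : Tendsto (fun N => |F (y + proj N (x - y)) - F y|) atTop
      (𝓝 |F (y + (x - y)) - F y|) :=
    (((hF.tendsto _).comp ((proj_tendsto (x - y)).const_add y)).sub_const _).abs
  rw [add_sub_cancel] at lim
  refine le_of_tendsto' lim fun N => (key N).trans ?_
  rw [dist_eq_norm]
  exact mul_le_mul_of_nonneg_left (sum_abs_le N _) hL

theorem FinSupp.tendsto {X : Type*} {φ : ℕ → (X → ℝ) →ₗ[ℝ] ℝ} (h : FinSupp φ) (k : ℕ)
    {F : ℕ → X → ℝ} {f : X → ℝ} (hF : ∀ x, Tendsto (fun N => F N x) atTop (𝓝 (f x))) :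
    Tendsto (fun N => φ k (F N)) atTop (𝓝 (φ k f)) := by
  obtain ⟨S, B, hB, hS⟩ := h k
  rw [Metric.tendsto_nhds]
  intro ε hε
  have h1 : ∀ᶠ N in atTop, ∀ x ∈ S, dist (F N x) (f x) < ε / (B + 1) := by
    rw [Filter.eventually_all_finset]
    intro x _
    exact Metric.tendsto_nhds.1 (hF x) _ (by positivity)
  filter_upwards [h1] with N hN
  have h2 := hS (F N - f) (ε / (B + 1)) (fun x hx => by
    have := hN x hx
    rw [Real.dist_eq] at this
    exact this.le)
  rw [map_sub] at h2
  rw [Real.dist_eq]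
  refine h2.trans_lt ?_
  rw [mul_div_assoc', div_lt_iff₀ (by positivity)]
  nlinarith

theorem no_c0 {φ : ℕ → (L1 → ℝ) →ₗ[ℝ] ℝ} {C c : ℝ} (H : Wuc φ C) (hC : 0 ≤ C) (hfin : FinSupp φ)
    (hc : 0 < c) (H2 : ∀ k, ∃ f : L1 → ℝ, Lip 1 f ∧ f 0 = 0 ∧ c ≤ φ k f) : False := by
  have hs := small H hfin 0 hc H2
  refine greedy H (fun m F => Continuous F ∧ ∃ N : ℕ,
      (∀ j x (t : ℝ), |F (x + t • ee j) - F x| ≤ (3 - (1 / 2) ^ m) * |t|) ∧
      ∀ j, N ≤ j → ∀ x (t : ℝ), F (x + t • ee j) = F x) 3 (c / 64) (by norm_num) (by positivity)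
      ?_ ?_ ?_
  · refine ⟨continuous_const, 0, ?_, ?_⟩
    · intro j x t; simp
    · intro j _ x t; rfl
  · rintro m F ⟨hF, N, h1, -⟩
    refine lip_of_dir hF (by norm_num) fun j x t => (h1 j x t).trans ?_
    have : (0:ℝ) ≤ (1 / 2) ^ m := by positivity
    nlinarith [abs_nonneg t]
  · rintro m F n ⟨hF, N, h1, h2⟩
    obtain ⟨n', hn, a, ha, h, hh, hd, hp⟩ := inner H hC hfin norm_ee (by positivity : 0 < c / 8)
      hs N (δ := (1 / 2) ^ (m + 1) / 3) (by positivity) n
    have hlim : Tendsto (fun M => ∑ k ∈ Ico n n', a k * φ k (fun x => h (proj M x))) atTop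
        (𝓝 (∑ k ∈ Ico n n', a k * φ k h)) := by
      refine tendsto_finsetSum _ fun k _ => Tendsto.const_mul _ ?_
      exact hfin.tendsto k (fun x => (hh.continuous.tendsto x).comp (proj_tendsto x))
    have hev := hlim.eventually (lt_mem_nhds (by linarith : c / 64 < ∑ k ∈ Ico n n', a k * φ k h))
    obtain ⟨M, hM1, hM2⟩ := (hev.and (eventually_ge_atTop N)).exists
    let h' : L1 → ℝ := fun x => h (proj M x)
    have hh' : Lip 2 h' := by
      intro x y
      refine (hh _ _).trans ?_
      rw [dist_eq_norm, dist_eq_norm, proj_sub]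
      linarith [norm_proj_le M (x - y)]
    have hpow : (0:ℝ) < (1 / 2) ^ (m + 1) := by positivity
    have hpow1 : ((1:ℝ) / 2) ^ (m + 1) ≤ 1 := pow_le_one₀ (by norm_num) (by norm_num)
    have hpow2 : ((1:ℝ) / 2) ^ m = 2 * (1 / 2) ^ (m + 1) := by ring
    have main : ∀ s : ℝ, |s| = 1 → Continuous (F + s • h') ∧ ∃ N : ℕ,
        (∀ j x (t : ℝ), |(F + s • h') (x + t • ee j) - (F + s • h') x|
          ≤ (3 - (1 / 2) ^ (m + 1)) * |t|) ∧
        ∀ j, N ≤ j → ∀ x (t : ℝ), (F + s • h') (x + t • ee j) = (F + s • h') x := by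
      intro s hs1
      refine ⟨hF.add (hh'.continuous.const_smul s), M, ?_, ?_⟩
      · intro j x t
        have e1 : (F + s • h') (x + t • ee j) - (F + s • h') x
            = (F (x + t • ee j) - F x) + s * (h' (x + t • ee j) - h' x) := by
          simp only [Pi.add_apply, Pi.smul_apply, smul_eq_mul]; ring
        rw [e1]
        refine (abs_add_le _ _).trans ?_
        rw [abs_mul, hs1, one_mul]
        by_cases hj : j < N
        · have h3 := h1 j x t
          have h4 := hd j hj (proj M x) t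
          have h5 : h' (x + t • ee j) = h (proj M x + t • ee j) := by
            simp only [h']; rw [proj_add, if_pos (by omega)]
          rw [h5]
          simp only [h']
          rw [hpow2] at h3
          nlinarith [abs_nonneg t]
        · rw [h2 j (not_lt.1 hj), sub_self, abs_zero, zero_add]
          have h3 := hh' (x + t • ee j) x
          rw [dist_eq_norm, add_sub_cancel_left, norm_smul, Real.norm_eq_abs] at h3
          have h4 : |t| * ‖ee j‖ ≤ |t| := by nlinarith [norm_ee j, abs_nonneg t]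
          nlinarith [abs_nonneg t]
      · intro j hj x t
        simp only [Pi.add_apply, Pi.smul_apply, smul_eq_mul, h']
        rw [h2 j (by omega), proj_add, if_neg (by omega)]
    refine ⟨n', hn, a, ha, h', hM1.le, ?_, ?_⟩
    · simpa using main 1 (by simp)
    · have := main (-1) (by simp)
      rwa [neg_one_smul, ← sub_eq_add_neg] at this

/-- pairing of a molecule with a function, normalised at the base point -/
noncomputable def pairing (μ : L1 →₀ ℝ) : (L1 → ℝ) →ₗ[ℝ] ℝ where
  toFun f := μ.sum fun x c => c * (f x - f 0)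
  map_add' f g := by
    simp only [Finsupp.sum, Pi.add_apply]
    rw [← Finset.sum_add_distrib]
    exact Finset.sum_congr rfl fun x _ => by ring
  map_smul' s f := by
    simp only [Finsupp.sum, Pi.smul_apply, smul_eq_mul, RingHom.id_apply]
    rw [Finset.mul_sum]
    exact Finset.sum_congr rfl fun x _ => by ring

theorem pairing_apply (μ : L1 →₀ ℝ) (f : L1 → ℝ) :
    pairing μ f = μ.sum fun x c => c * (f x - f 0) := rfl

theorem lip_iff {f : L1 → ℝ} : LipschitzWith 1 f ↔ Lip 1 f := by
  rw [lipschitzWith_iff_dist_le_mul]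
  simp only [Lip, Real.dist_eq, NNReal.coe_one]

theorem final :
    ¬ (∃ (μ : ℕ → (lp (fun _ : ℕ => ℝ) 1 →₀ ℝ)) (a b : ℝ), 0 < a ∧
    ∀ t : ℕ →₀ ℝ,
      (∀ f : lp (fun _ : ℕ => ℝ) 1 → ℝ, LipschitzWith 1 f → f 0 = 0 →
        |t.sum (fun n s => s * (μ n).sum (fun x c => c * f x))| ≤ b * (⨆ n, |t n|)) ∧
      (∃ f : lp (fun _ : ℕ => ℝ) 1 → ℝ, LipschitzWith 1 f ∧ f 0 = 0 ∧
        a * (⨆ n, |t n|) ≤ |t.sum (fun n s => s * (μ n).sum (fun x c => c * f x))|)) := by
  classical
  rintro ⟨μ, a, b, ha, H⟩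
  have H1 : ∀ (s : Finset ℕ) (α : ℕ → ℝ), (∀ k, |α k| ≤ 1) → ∀ f : L1 → ℝ, Lip 1 f →
      |∑ k ∈ s, α k * pairing (μ k) f| ≤ |b| := by
    intro s α hα f hf
    let t : ℕ →₀ ℝ := Finsupp.onFinset s (fun k => if k ∈ s then α k else 0)
      (fun k hk => by by_contra h; simp [h] at hk)
    have ht : ∀ k, t k = if k ∈ s then α k else 0 := fun k => rfl
    have h1 := (H t).1 (fun x => f x - f 0) (lip_iff.2 (fun x y => by simpa using hf x y))
      (by simp)
    rw [Finsupp.sum_of_support_subset t (s := s) Finsupp.support_onFinset_subset _ (by simp)] at h1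
    have h2 : ∑ k ∈ s, α k * pairing (μ k) f
        = ∑ k ∈ s, t k * (μ k).sum fun x c => c * (f x - f 0) :=
      Finset.sum_congr rfl fun k hk => by rw [ht, if_pos hk, pairing_apply]
    rw [h2]
    refine h1.trans ?_
    have h3 : (⨆ n, |t n|) ≤ 1 := Real.iSup_le (fun k => by
      rw [ht]; split_ifs
      · exact hα k
      · simp) zero_le_one
    have h4 : 0 ≤ ⨆ n, |t n| := Real.iSup_nonneg fun k => abs_nonneg _
    nlinarith [le_abs_self b, abs_nonneg b]
  refine no_c0 (φ := fun k => pairing (μ k)) (C := |b|) (c := a) ?_ (abs_nonneg b) ?_ ha ?_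
  · intro s α hα L f hL hf
    rcases hL.eq_or_lt with h0 | hpos
    · subst h0
      have : ∀ k, pairing (μ k) f = 0 := by
        intro k
        rw [pairing_apply]
        refine Finset.sum_eq_zero fun x _ => ?_
        have := hf x 0
        rw [zero_mul, abs_nonpos_iff] at this
        simp [this]
      simp [this]
    · have h1 := hf.cmul L⁻¹
      rw [abs_of_pos (inv_pos.2 hpos), inv_mul_cancel₀ hpos.ne'] at h1
      have h2 := H1 s α hα _ h1
      have e : (fun x => L⁻¹ * f x) = L⁻¹ • f := rfl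
      simp only [e, map_smul, smul_eq_mul] at h2
      have h3 : ∑ k ∈ s, α k * (L⁻¹ * pairing (μ k) f) = L⁻¹ * ∑ k ∈ s, α k * pairing (μ k) f := by
        rw [Finset.mul_sum]; exact Finset.sum_congr rfl fun k _ => by ring
      rw [h3, abs_mul, abs_of_pos (inv_pos.2 hpos), inv_mul_le_iff₀ hpos] at h2
      linarith
  · intro k
    refine ⟨insert 0 (μ k).support, 2 * ∑ x ∈ (μ k).support, |μ k x|, by positivity, ?_⟩
    intro f r hr
    rw [pairing_apply, Finsupp.sum]
    refine (Finset.abs_sum_le_sum_abs _ _).trans ?_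
    rw [Finset.mul_sum, Finset.sum_mul]
    refine Finset.sum_le_sum fun x hx => ?_
    have h1 := hr x (by simp [hx])
    have h2 := hr 0 (by simp)
    have h3 := abs_sub (f x) (f 0)
    rw [abs_mul]
    nlinarith [abs_nonneg (μ k x)]
  · intro k
    obtain ⟨f, hf, hf0, h1⟩ := (H (Finsupp.single k 1)).2
    rw [Finsupp.sum_single_index (by simp), one_mul] at h1
    have h2 : 1 ≤ ⨆ n, |(Finsupp.single k (1:ℝ)) n| := by
      have hb : BddAbove (Set.range fun n => |(Finsupp.single k (1:ℝ)) n|) := by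
        refine ⟨1, ?_⟩
        rintro _ ⟨n, rfl⟩
        simp only [Finsupp.single_apply]
        split_ifs <;> simp
      have := le_ciSup hb k
      simpa using this
    have h3 : pairing (μ k) f = (μ k).sum fun x c => c * f x := by
      rw [pairing_apply]; simp [hf0]
    rw [← h3] at h1
    have h4 : a ≤ |pairing (μ k) f| := by nlinarith
    rcases le_abs.1 h4 with h5 | h5
    · exact ⟨f, lip_iff.1 hf, hf0, h5⟩
    · refine ⟨-f, (lip_iff.1 hf).neg, by simp [hf0], ?_⟩
      rw [map_neg]; exact h5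

end H441Z.FL
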