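import Pool.Agent.H441Z.FL.Gen

set_option autoImplicit false
set_option maxHeartbeats 400000

open Finset Filter Topology

namespace H441Z.FL

variable {E : Type*} [NormedAddCommGroup E] [NormedSpace ℝ E]

/-- `g` is a bounded Lipschitz directional derivative of `f` along `e`, with quadratic error. -/
def Der (e : E) (f g : E → ℝ) (K : ℝ) : Prop :=
  Lip K g ∧ (∀ x, |g x| ≤ 1) ∧ ∀ x (t : ℝ), |f (x + t • e) - f x - t * g x| ≤ K * t ^ 2

theorem Der.mono {e : E} {f g : E → ℝ} {K K' : ℝ} (h : Der e f g K) (hK : K ≤ K') :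
    Der e f g K' :=
  ⟨h.1.mono hK, h.2.1, fun x t => (h.2.2 x t).trans (mul_le_mul_of_nonneg_right hK (sq_nonneg t))⟩

/-- average along `e` over `[0,h]` -/
noncomputable def avg (e : E) (h : ℝ) (f : E → ℝ) (x : E) : ℝ :=
  h⁻¹ * ∫ s in (0:ℝ)..h, f (x + s • e)

theorem abs_avg_le {h B : ℝ} (hh : 0 < h) {F : ℝ → ℝ} (hF : ∀ s, 0 ≤ s → s ≤ h → |F s| ≤ B) :
    |h⁻¹ * ∫ s in (0:ℝ)..h, F s| ≤ B := by
  have := intervalIntegral.norm_integral_le_of_norm_le_const (a := 0) (b := h) (C := B) (f := F)
    (fun s hs => by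
      rw [Set.uIoc_of_le hh.le] at hs
      exact hF s hs.1.le hs.2)
  rw [Real.norm_eq_abs, sub_zero, abs_of_pos hh] at this
  rw [abs_mul, abs_of_pos (inv_pos.2 hh), inv_mul_le_iff₀ hh]
  linarith

theorem cont_line {f : E → ℝ} (hf : Continuous f) (x e : E) :
    Continuous (fun s : ℝ => f (x + s • e)) := by fun_prop

theorem avg_lip {e : E} {h L : ℝ} (hh : 0 < h) {f : E → ℝ} (hf : Lip L f) : Lip L (avg e h f) := by
  intro x y
  have hc := hf.continuous
  have e1 : avg e h f x - avg e h f y
      = h⁻¹ * ∫ s in (0:ℝ)..h, (f (x + s • e) - f (y + s • e)) := by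
    rw [intervalIntegral.integral_sub ((cont_line hc x e).intervalIntegrable _ _)
      ((cont_line hc y e).intervalIntegrable _ _)]
    simp only [avg]; ring
  rw [e1]
  refine abs_avg_le hh fun s _ _ => ?_
  have := hf (x + s • e) (y + s • e)
  rwa [dist_add_right] at this

theorem avg_bound {e : E} {h r : ℝ} (hh : 0 < h) {f : E → ℝ} (hf : ∀ x, |f x| ≤ r) (x : E) :
    |avg e h f x| ≤ r := abs_avg_le hh fun _ _ _ => hf _

theorem avg_close {e : E} (he : ‖e‖ ≤ 1) {h : ℝ} (hh : 0 < h) {f : E → ℝ} (hf : Lip 1 f) (x : E) :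
    |avg e h f x - f x| ≤ h := by
  have hc := hf.continuous
  have e1 : avg e h f x - f x = h⁻¹ * ∫ s in (0:ℝ)..h, (f (x + s • e) - f x) := by
    rw [intervalIntegral.integral_sub ((cont_line hc x e).intervalIntegrable _ _)
      (continuous_const.intervalIntegrable _ _)]
    simp only [avg, intervalIntegral.integral_const, sub_zero, smul_eq_mul]
    field_simp
  rw [e1]
  refine abs_avg_le hh fun s h0 h1 => ?_
  have := hf (x + s • e) x
  rw [one_mul, dist_eq_norm, add_sub_cancel_left, norm_smul, Real.norm_eq_abs,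
    abs_of_nonneg h0] at this
  nlinarith [norm_nonneg e]

theorem avg_der_old {e e' : E} {h K : ℝ} (hh : 0 < h) {f g : E → ℝ} (hf : Continuous f)
    (hd : Der e' f g K) : Der e' (avg e h f) (avg e h g) K := by
  refine ⟨avg_lip hh hd.1, avg_bound hh hd.2.1, fun x t => ?_⟩
  have hg := hd.1.continuous
  have e1 : avg e h f (x + t • e') - avg e h f x - t * avg e h g x
      = h⁻¹ * ∫ s in (0:ℝ)..h, (f (x + t • e' + s • e) - f (x + s • e) - t * g (x + s • e)) := by
    rw [intervalIntegral.integral_sub, intervalIntegral.integral_sub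
      ((cont_line hf _ e).intervalIntegrable _ _) ((cont_line hf x e).intervalIntegrable _ _),
      intervalIntegral.integral_const_mul]
    · simp only [avg]; ring
    · exact ((cont_line hf _ e).sub (cont_line hf x e)).intervalIntegrable _ _
    · exact (continuous_const.mul (cont_line hg x e)).intervalIntegrable _ _
  rw [e1]
  refine abs_avg_le hh fun s _ _ => ?_
  have := hd.2.2 (x + s • e) t
  rwa [add_right_comm x (s • e)] at this

theorem avg_der_new {e : E} (he : ‖e‖ ≤ 1) {h : ℝ} (hh : 0 < h) {f : E → ℝ} (hf : Lip 1 f) :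
    Der e (avg e h f) (fun x => h⁻¹ * (f (x + h • e) - f x)) (2 / h) := by
  have hc := hf.continuous
  have hline : ∀ (x : E) (s u : ℝ), |f (x + s • e) - f (x + u • e)| ≤ |s - u| := by
    intro x s u
    have := hf (x + s • e) (x + u • e)
    rw [one_mul, dist_add_left, dist_eq_norm, ← sub_smul, norm_smul, Real.norm_eq_abs] at this
    nlinarith [norm_nonneg e, abs_nonneg (s - u)]
  refine ⟨?_, ?_, ?_⟩
  · have h1 : Lip 1 (fun x => f (x + h • e)) := by
      intro x y
      have := hf (x + h • e) (y + h • e)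
      rwa [dist_add_right] at this
    have := (h1.sub hf).cmul h⁻¹
    rw [abs_of_pos (inv_pos.2 hh)] at this
    refine this.mono (le_of_eq ?_)
    field_simp
    norm_num
  · intro x
    have := hline x h 0
    rw [zero_smul, add_zero, sub_zero, abs_of_pos hh] at this
    rw [abs_mul, abs_of_pos (inv_pos.2 hh), inv_mul_le_iff₀ hh]
    linarith
  · intro x t
    set F : ℝ → ℝ := fun s => f (x + s • e) with hF
    have hFc : Continuous F := cont_line hc x e
    have hi : ∀ a b : ℝ, IntervalIntegrable F MeasureTheory.volume a b :=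
      fun a b => hFc.intervalIntegrable a b
    have e1 : ∫ s in (0:ℝ)..h, f (x + t • e + s • e) = ∫ s in t..(h + t), F s := by
      have := intervalIntegral.integral_comp_add_right (a := 0) (b := h) F t
      rw [zero_add] at this
      rw [← this]
      congr 1
      ext s
      simp only [hF]
      rw [add_smul, add_assoc, add_comm (t • e)]
    have e2 : ∫ s in (0:ℝ)..t, F (s + h) = ∫ s in h..(h + t), F s := by
      have := intervalIntegral.integral_comp_add_right (a := 0) (b := t) F h
      rw [zero_add, add_comm t h] at this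
      exact this
    have e3 := intervalIntegral.integral_add_adjacent_intervals (hi 0 t) (hi t (h + t))
    have e4 := intervalIntegral.integral_add_adjacent_intervals (hi 0 h) (hi h (h + t))
    have e5 : ∫ s in (0:ℝ)..t, ((F (s + h) - F h) - (F s - F 0))
        = (∫ s in (0:ℝ)..t, F (s + h)) - t * F h - ((∫ s in (0:ℝ)..t, F s) - t * F 0) := by
      have c1 : Continuous (fun s => F (s + h)) := by fun_prop
      rw [intervalIntegral.integral_sub, intervalIntegral.integral_sub,
        intervalIntegral.integral_sub]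
      · simp
      · exact hi _ _
      · exact continuous_const.intervalIntegrable _ _
      · exact c1.intervalIntegrable _ _
      · exact continuous_const.intervalIntegrable _ _
      · exact (c1.sub continuous_const).intervalIntegrable _ _
      · exact (hFc.sub continuous_const).intervalIntegrable _ _
    have e6 : avg e h f (x + t • e) - avg e h f x - t * (h⁻¹ * (f (x + h • e) - f x))
        = h⁻¹ * ∫ s in (0:ℝ)..t, ((F (s + h) - F h) - (F s - F 0)) := by
      rw [e5, e2]
      simp only [avg]
      rw [e1]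
      have h0 : F 0 = f x := by simp [hF]
      have h1 : F h = f (x + h • e) := rfl
      have h2 : ∫ s in (0:ℝ)..h, f (x + s • e) = ∫ s in (0:ℝ)..h, F s := rfl
      rw [h0, h1, h2]
      linear_combination h⁻¹ * (e3 - e4)
    rw [e6]
    have hb := intervalIntegral.norm_integral_le_of_norm_le_const (a := 0) (b := t)
      (C := 2 * |t|) (f := fun s => (F (s + h) - F h) - (F s - F 0)) (fun s hs => by
        have hs' : |s| ≤ |t| := by
          rcases le_total 0 t with ht | ht
          · rw [Set.uIoc_of_le ht] at hs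
            rw [abs_of_pos hs.1, abs_of_nonneg ht]; exact hs.2
          · rw [Set.uIoc_of_ge ht] at hs
            rw [abs_of_nonpos hs.2, abs_of_nonpos ht]; linarith [hs.1]
        have h1 := hline x (s + h) h
        have h2 := hline x s 0
        rw [add_sub_cancel_right] at h1
        rw [sub_zero] at h2
        have h3 := abs_sub (F (s + h) - F h) (F s - F 0)
        rw [Real.norm_eq_abs]
        simp only [hF] at h3 ⊢
        linarith)
    rw [Real.norm_eq_abs, sub_zero, mul_assoc, abs_mul_abs_self] at hb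
    rw [abs_mul, abs_of_pos (inv_pos.2 hh), inv_mul_le_iff₀ hh]
    refine hb.trans (le_of_eq ?_)
    field_simp

theorem smooth (e : ℕ → E) (he : ∀ j, ‖e j‖ ≤ 1) (N : ℕ) {r : ℝ} {f : E → ℝ} (hf : Lip 1 f)
    (hr : ∀ x, |f x| ≤ r) : ∀ θ : ℝ, 0 < θ → ∃ (f' : E → ℝ) (g : ℕ → E → ℝ) (K : ℝ), 0 ≤ K ∧
      Lip 1 f' ∧ (∀ x, |f' x| ≤ r) ∧ (∀ x, |f' x - f x| ≤ θ) ∧ ∀ j < N, Der (e j) f' (g j) K := by
  induction N with
  | zero => exact fun θ hθ => ⟨f, fun _ _ => 0, 0, le_rfl, hf, hr, by simp [hθ.le], by simp⟩
  | succ N ih =>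
    intro θ hθ
    have hh : 0 < θ / 2 := by linarith
    obtain ⟨f', g, K, hK, h1, h2, h3, h4⟩ := ih (θ / 2) hh
    refine ⟨avg (e N) (θ / 2) f', fun j => if j < N then avg (e N) (θ / 2) (g j) else
      fun x => (θ / 2)⁻¹ * (f' (x + (θ / 2) • e N) - f' x), K + 2 / (θ / 2), by positivity,
      avg_lip hh h1, avg_bound hh h2, ?_, ?_⟩
    · intro x
      have h5 := avg_close (he N) hh h1 x
      have h6 := h3 x
      have h7 := abs_sub_le (avg (e N) (θ / 2) f' x) (f' x) (f x)
      linarith
    · intro j hj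
      by_cases hjN : j < N
      · simp only [hjN, if_true]
        exact (avg_der_old hh h1.continuous (h4 j hjN)).mono (le_add_of_nonneg_right (by positivity))
      · have : j = N := by omega
        subst this
        simp only [hjN, if_false]
        exact (avg_der_new (he j) hh h1).mono (le_add_of_nonneg_left hK)

theorem line_lip {e : E} {h : E → ℝ} {A K : ℝ}
    (H : ∀ x (t : ℝ), |h (x + t • e) - h x| ≤ A * |t| + K * t ^ 2) (x : E) (t : ℝ) :
    |h (x + t • e) - h x| ≤ A * |t| := by
  have key : ∀ (n : ℕ) (u : ℝ), |h (x + (n * u) • e) - h x| ≤ n * (A * |u| + K * u ^ 2) := by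
    intro n u
    induction n with
    | zero => simp
    | succ n ih =>
      have h1 := H (x + (n * u) • e) u
      have e1 : x + ((n : ℝ) * u) • e + u • e = x + (((n + 1 : ℕ) : ℝ) * u) • e := by
        push_cast
        rw [add_mul, one_mul, add_smul, add_assoc]
      rw [e1] at h1
      have h2 := abs_sub_le (h (x + (((n + 1 : ℕ) : ℝ) * u) • e)) (h (x + (n * u) • e)) (h x)
      push_cast at *
      linarith
  have lim : Tendsto (fun n : ℕ => A * |t| + K * t ^ 2 / ((n : ℝ) + 1)) atTop (𝓝 (A * |t| + 0)) := by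
    refine tendsto_const_nhds.add ?_
    exact tendsto_const_div_atTop_nhds_zero_nat (K * t ^ 2) |>.comp (tendsto_add_atTop_nat 1)
      |>.congr (fun n => by simp)
  rw [add_zero] at lim
  refine ge_of_tendsto' lim fun n => ?_
  have hn : (0:ℝ) < (n:ℝ) + 1 := by positivity
  have h1 := key (n + 1) (t / ((n:ℝ) + 1))
  push_cast at h1
  rw [mul_div_cancel₀ _ hn.ne', abs_div, abs_of_pos hn] at h1
  refine h1.trans (le_of_eq ?_)
  field_simp

end H441Z.FL
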